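import Pool.Agent.TH158.FM.Gen
import Pool.Agent.Helper240.ZU.A1

set_option autoImplicit false

/-!
Large orders: a lower bound of the moment by a single value.
-/

namespace Pool.Agent.TH158.LO

open Complex MeasureTheory Set
open Pool.Agent.TH158.FM

noncomputable section

lemma zbound (s : ℂ) (hs : 1 / 4 ≤ s.re) (him : 1 ≤ s.im) : ‖riemannZeta s‖ ≤ 2 + 4 * ‖s‖ := by
  have hs0 : 0 < s.re := by linarith
  have hs1 : s ≠ 1 := by
    intro h
    rw [h] at him
    norm_num at him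
  rw [ZU.J_a1.zf_one s hs0 hs1]
  have h1 : 1 ≤ ‖s - 1‖ := by
    have := Complex.abs_im_le_norm (s - 1)
    simp only [sub_im, one_im, sub_zero] at this
    exact (him.trans (le_abs_self _)).trans this
  have h2 : ‖(1 : ℂ) / (s - 1)‖ ≤ 1 := by
    rw [norm_div, norm_one]
    exact div_le_one_of_le₀ h1 (norm_nonneg _)
  have h3 : ‖∫ u in Ioi (1 : ℝ), ((Int.fract u : ℝ) : ℂ) * (u : ℂ) ^ (-s - 1)‖ ≤ 4 := by
    have h4 : IntegrableOn (fun u : ℝ => u ^ (-s.re - 1)) (Ioi (1:ℝ)) :=
      integrableOn_Ioi_rpow_of_lt (by linarith) one_pos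
    have h5 : ∫ u in Ioi (1 : ℝ), u ^ (-s.re - 1) = 1 / s.re := by
      rw [integral_Ioi_rpow_of_lt (by linarith) one_pos]
      rw [Real.one_rpow]
      have : -s.re - 1 + 1 = -s.re := by ring
      rw [this]
      rw [neg_div_neg_eq]
    have h6 : 1 / s.re ≤ 4 := by
      rw [div_le_iff₀ hs0]
      linarith
    refine le_trans (norm_integral_le_of_norm_le h4 ?_) (h5.trans_le h6)
    rw [ae_restrict_iff' measurableSet_Ioi]
    refine Filter.Eventually.of_forall fun u hu => ?_
    have hu0 : (0:ℝ) < u := lt_trans one_pos hu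
    rw [norm_mul, Complex.norm_real, Real.norm_eq_abs, Int.abs_fract,
      Complex.norm_cpow_eq_rpow_re_of_pos hu0]
    have h7 : (-s - 1).re = -s.re - 1 := by simp
    rw [h7]
    have h8 := (Int.fract_lt_one u).le
    have h9 : 0 ≤ u ^ (-s.re - 1) := by positivity
    nlinarith
  calc ‖1 + 1 / (s - 1) - s * ∫ u in Ioi (1 : ℝ), ((Int.fract u : ℝ) : ℂ) * (u : ℂ) ^ (-s - 1)‖
      ≤ ‖(1:ℂ)‖ + ‖(1 : ℂ) / (s - 1)‖ +
        ‖s * ∫ u in Ioi (1 : ℝ), ((Int.fract u : ℝ) : ℂ) * (u : ℂ) ^ (-s - 1)‖ :=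
        (norm_sub_le _ _).trans (by gcongr; exact norm_add_le _ _)
    _ ≤ 1 + 1 + ‖s‖ * 4 := by
        rw [norm_one, norm_mul]
        gcongr
    _ = 2 + 4 * ‖s‖ := by ring

lemma deriv_bound {u : ℝ} (hu : 2 ≤ u) : ‖deriv riemannZeta (pt (1 / 2) u)‖ ≤ 20 + 16 * u := by
  have hre : (pt (1 / 2) u).re = 1 / 2 := by simp [pt]
  have him : (pt (1 / 2) u).im = u := by simp [pt]
  have hn : ‖pt (1 / 2) u‖ ≤ 1 / 2 + u := by
    refine (Complex.norm_le_abs_re_add_abs_im _).trans ?_
    rw [hre, him, abs_of_nonneg (by linarith : (0:ℝ) ≤ u)]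
    norm_num
  have hd : DiffContOnCl ℂ riemannZeta (Metric.ball (pt (1 / 2) u) (1 / 4)) := by
    apply DifferentiableOn.diffContOnCl
    rw [closure_ball _ (by norm_num)]
    intro s hs
    apply DifferentiableAt.differentiableWithinAt
    apply differentiableAt_riemannZeta
    intro h
    rw [h, Metric.mem_closedBall, dist_eq_norm] at hs
    have := (Complex.abs_im_le_norm _).trans hs
    rw [sub_im, him, one_im, zero_sub, abs_neg, abs_of_nonneg (by linarith)] at this
    linarith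
  have h := Complex.norm_deriv_le_of_forall_mem_sphere_norm_le (C := 5 + 4 * u)
    (by norm_num : (0:ℝ) < 1 / 4) hd (fun s hs => by
      rw [mem_sphere_iff_norm] at hs
      have h1 : |(s - pt (1 / 2) u).re| ≤ 1 / 4 := (Complex.abs_re_le_norm _).trans hs.le
      have h2 : |(s - pt (1 / 2) u).im| ≤ 1 / 4 := (Complex.abs_im_le_norm _).trans hs.le
      rw [sub_re, hre, abs_le] at h1
      rw [sub_im, him, abs_le] at h2
      have h3 : ‖s‖ ≤ 3 / 4 + u := by
        calc ‖s‖ = ‖(s - pt (1 / 2) u) + pt (1 / 2) u‖ := by rw [sub_add_cancel]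
          _ ≤ 1 / 4 + (1 / 2 + u) := (norm_add_le _ _).trans (add_le_add hs.le hn)
          _ = _ := by ring
      refine (zbound s (by linarith [h1.1]) (by linarith [h2.1])).trans ?_
      linarith)
  refine h.trans (le_of_eq ?_)
  ring

lemma lip {t u : ℝ} (ht : 3 ≤ t) (hu : t - 1 / 2 ≤ u) (hut : u ≤ t) :
    ‖riemannZeta (pt (1 / 2) t) - riemannZeta (pt (1 / 2) u)‖ ≤ 28 * t * (t - u) := by
  have h := Convex.norm_image_sub_le_of_norm_hasDerivWithin_le (𝕜 := ℝ) (C := 28 * t)
    (f := fun u : ℝ => riemannZeta (pt (1 / 2) u)) (s := Icc (t - 1 / 2) t)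
    (f' := fun u : ℝ => deriv riemannZeta (pt (1 / 2) u) * I) (x := u) (y := t) ?_ ?_
    (convex_Icc _ _) ⟨hu, hut⟩ ⟨by linarith, le_rfl⟩
  · simpa [Real.norm_eq_abs, abs_of_nonneg (sub_nonneg.2 hut)] using h
  · intro v hv
    apply HasDerivAt.hasDerivWithinAt
    have hne : pt (1 / 2) v ≠ 1 := by
      intro h
      have := congrArg Complex.re h
      simp [pt] at this
    have h1 := (differentiableAt_riemannZeta hne).hasDerivAt
    have h2 : HasDerivAt (fun v : ℝ => pt (1 / 2) v) I v := by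
      unfold pt
      have h3 := ((hasDerivAt_id v).ofReal_comp.mul_const I).const_add (((1 / 2 : ℝ)) : ℂ)
      simpa using h3
    exact HasDerivAt.comp v h1 h2
  · intro v hv
    rw [norm_mul, Complex.norm_I, mul_one]
    refine (deriv_bound (by linarith [hv.1])).trans ?_
    linarith [hv.2]

/-- one value bounds the moment from below -/
theorem low (hzb : S_ZB) {t k : ℝ} (ht : 3 ≤ t) (hk : 0 < k)
    (hV : 1 ≤ ‖riemannZeta (pt (1 / 2) t)‖) :
    1 / (56 * t) * (‖riemannZeta (pt (1 / 2) t)‖ / 2) ^ (2 * k) ≤ MM k t := by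
  obtain ⟨V, hVd⟩ : ∃ V : ℝ, V = ‖riemannZeta (pt (1 / 2) t)‖ := ⟨_, rfl⟩
  rw [← hVd] at hV ⊢
  have ht0 : 0 < t := by linarith
  have hV2 : V ≤ 3 + t := by
    have := hzb t
    rwa [abs_of_pos ht0, ← hVd] at this
  obtain ⟨h, hh⟩ : ∃ h : ℝ, h = V / (56 * t) := ⟨_, rfl⟩
  have hh0 : 0 < h := by rw [hh]; positivity
  have hh1 : h ≤ 1 / 2 := by
    rw [hh, div_le_iff₀ (by positivity)]
    linarith
  have hhV : 28 * t * h = V / 2 := by
    rw [hh]; field_simp; ring
  have hcont : Continuous (fun u : ℝ => ‖riemannZeta (pt (1 / 2) u)‖ ^ (2 * k)) :=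
    zeta_cont.norm.rpow_const (fun t => Or.inr (by linarith))
  have h1 : ∫ u in (t - h)..t, (V / 2) ^ (2 * k) ≤
      ∫ u in (t - h)..t, ‖riemannZeta (pt (1 / 2) u)‖ ^ (2 * k) := by
    apply intervalIntegral.integral_mono_on (by linarith)
    · exact continuous_const.intervalIntegrable _ _
    · exact hcont.intervalIntegrable _ _
    · intro u hu
      apply Real.rpow_le_rpow (by positivity) _ (by linarith)
      have h2 := lip ht (by linarith [hu.1] : t - 1 / 2 ≤ u) hu.2
      have h3 : 28 * t * (t - u) ≤ 28 * t * h := by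
        gcongr
        linarith [hu.1]
      have h4 := norm_sub_norm_le (riemannZeta (pt (1 / 2) t)) (riemannZeta (pt (1 / 2) u))
      rw [← hVd] at h4
      linarith
  have h5 : ∫ u in (t - h)..t, ‖riemannZeta (pt (1 / 2) u)‖ ^ (2 * k) ≤ MM k t := by
    unfold MM
    rw [← intervalIntegral.integral_add_adjacent_intervals (hcont.intervalIntegrable 0 (t - h))
      (hcont.intervalIntegrable (t - h) t)]
    have : 0 ≤ ∫ u in (0:ℝ)..(t - h), ‖riemannZeta (pt (1 / 2) u)‖ ^ (2 * k) :=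
      intervalIntegral.integral_nonneg (by linarith) (fun u _ => by positivity)
    linarith
  rw [intervalIntegral.integral_const, smul_eq_mul] at h1
  refine le_trans ?_ (h1.trans h5)
  have : t - (t - h) = h := by ring
  rw [this]
  gcongr
  rw [hh]
  gcongr

end

end Pool.Agent.TH158.LO
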