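import Pool.Agent.TH158.LO.Fwd
import Pool.Agent.TH158.LO.Low

set_option autoImplicit false

/-!
Large orders: from the inequality for `T ≤ k ^ (B k)` to the growth exponent of zeta.
-/

namespace Pool.Agent.TH158.LO

open Complex MeasureTheory Set Filter Topology
open Pool.Agent.TH158.FM

noncomputable section

lemma log_small {c : ℝ} (hc : 0 < c) : ∀ᶠ y : ℝ in atTop, Real.log y ≤ c * y := by
  have h := Real.isLittleO_log_id_atTop.bound hc
  filter_upwards [h, eventually_ge_atTop (1:ℝ)] with y hy h1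
  simp only [id, Real.norm_eq_abs] at hy
  rw [abs_of_nonneg (Real.log_nonneg h1), abs_of_nonneg (by linarith : (0:ℝ) ≤ y)] at hy
  exact hy

/-- backward direction -/
theorem bwd (hzb : S_ZB) {A : ℝ} (hA : 0 < A) (h : ∀ B : ℝ, B < A → Reg B) : GE (1 / (2 * A)) := by
  intro ε hε
  obtain ⟨B', hB'⟩ : ∃ B' : ℝ, B' = 1 / (1 / A + ε) := ⟨_, rfl⟩
  have hB'0 : 0 < B' := by rw [hB']; positivity
  have hB'i : 1 / (2 * B') = 1 / (2 * A) + ε / 2 := by
    rw [hB']; field_simp
  have hB'A : B' < A := by
    rw [hB', div_lt_iff₀ (by positivity)]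
    have : A * (1 / A + ε) = 1 + A * ε := by field_simp
    rw [this]
    have : 0 < A * ε := by positivity
    linarith
  obtain ⟨B, hB⟩ : ∃ B : ℝ, B = (B' + A) / 2 := ⟨_, rfl⟩
  have hB1 : B' < B := by rw [hB]; linarith
  have hB2 : B < A := by rw [hB]; linarith
  have hB0 : 0 < B := by linarith
  obtain ⟨k0, hk0⟩ := h B hB2
  have hq : B' / B < 1 := (div_lt_one hB0).2 hB1
  -- eventual facts
  have e1 : ∀ᶠ y : ℝ in atTop, Real.log y ≤ (1 / (B' * (|k0| + 1))) * y :=
    log_small (by positivity)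
  have e2 : ∀ᶠ y : ℝ in atTop, Real.log (Real.log y) ≤ ((1 - B' / B) / 2) * Real.log y :=
    Real.tendsto_log_atTop.eventually (log_small (by linarith))
  have e3 : ∀ᶠ y : ℝ in atTop, |Real.log B'| / ((1 - B' / B) / 2) ≤ Real.log y :=
    Real.tendsto_log_atTop.eventually (eventually_ge_atTop _)
  have e4 : ∀ᶠ y : ℝ in atTop, Real.log y ≤ (ε / (8 * B')) * y := log_small (by positivity)
  have e5 : ∀ᶠ y : ℝ in atTop, Real.log 2 / (ε / 4) ≤ y := eventually_ge_atTop _
  have e6 : ∀ᶠ y : ℝ in atTop, Real.log 56 ≤ y := eventually_ge_atTop _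
  have E := Real.tendsto_log_atTop.eventually
    (e1.and (e2.and (e3.and (e4.and (e5.and e6)))))
  obtain ⟨T1, hT1⟩ := eventually_atTop.1 (E.and (eventually_ge_atTop (1000:ℝ)))
  have hμ0 : 0 < 1 / (2 * A) + ε := by positivity
  refine ⟨3 + |T1|, fun t ht => ?_⟩
  have htp : 1 ≤ t ^ (1 / (2 * A) + ε) := Real.one_le_rpow ht hμ0.le
  rcases le_total t T1 with hle | hge
  · refine (hzb t).trans ?_
    rw [abs_of_nonneg (by linarith : (0:ℝ) ≤ t)]
    have : t ≤ |T1| := hle.trans (le_abs_self _)
    have : 0 ≤ |T1| := abs_nonneg _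
    nlinarith
  · suffices hs : ‖riemannZeta (pt (1 / 2) t)‖ ≤ t ^ (1 / (2 * A) + ε) by
      refine hs.trans ?_
      have : 0 ≤ |T1| := abs_nonneg _
      nlinarith
    obtain ⟨⟨f1, f2, f3, f4, f5, f6⟩, f7⟩ := hT1 t hge
    obtain ⟨V, hV⟩ : ∃ V : ℝ, V = ‖riemannZeta (pt (1 / 2) t)‖ := ⟨_, rfl⟩
    rw [← hV]
    rcases le_total V 1 with hV1 | hV1
    · linarith
    have ht0 : 0 < t := by linarith
    have hl := log_ge f7
    obtain ⟨y, hy⟩ : ∃ y : ℝ, y = Real.log t := ⟨_, rfl⟩
    rw [← hy] at f1 f2 f3 f4 f5 f6 hl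
    have hy0 : 0 < y := by linarith
    have hey : Real.exp 1 ≤ y := by have := Real.exp_one_lt_d9; linarith
    have hly : 1 ≤ Real.log y := by rwa [Real.le_log_iff_exp_le hy0]
    have hly0 : 0 < Real.log y := by linarith
    obtain ⟨k, hk⟩ : ∃ k : ℝ, k = y / (B' * Real.log y) := ⟨_, rfl⟩
    have hkpos : 0 < k := by rw [hk]; positivity
    have hky : k * (B' * Real.log y) = y := by
      rw [hk]; field_simp
    have hkk : |k0| + 1 ≤ k := by
      rw [hk, le_div_iff₀ (by positivity)]
      have h1 : (|k0| + 1) * (B' * Real.log y) ≤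
          (|k0| + 1) * (B' * (1 / (B' * (|k0| + 1)) * y)) := by gcongr
      refine h1.trans (le_of_eq ?_)
      have : |k0| + 1 ≠ 0 := by positivity
      field_simp
    have hkk0 : k0 ≤ k := by linarith [le_abs_self k0]
    have hk1 : 1 ≤ k := by linarith [abs_nonneg k0]
    -- `log k ≥ (B'/B) log y`
    have hlk : B' / B * Real.log y ≤ Real.log k := by
      rw [hk, Real.log_div hy0.ne' (by positivity), Real.log_mul hB'0.ne' hly0.ne']
      rw [div_le_iff₀ (by linarith)] at f3
      have := le_abs_self (Real.log B')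
      nlinarith
    have htk : t ≤ k ^ (B * k) := by
      rw [← Real.exp_log ht0, ← hy, Real.rpow_def_of_pos hkpos]
      apply Real.exp_le_exp.2
      calc y = k * (B' * Real.log y) := hky.symm
        _ = B' / B * Real.log y * (B * k) := by field_simp
        _ ≤ Real.log k * (B * k) := by gcongr
    have h1 := hk0 k t hkk0 f7 htk
    have h2 := low hzb (by linarith : 3 ≤ t) hkpos (by rwa [← hV])
    rw [← hV] at h2
    rw [← hy] at h1
    have h3 : (V / 2) ^ (2 * k) ≤ 56 * t ^ 2 * y ^ (k ^ 2) := by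
      have h4 := h2.trans h1
      have h5 : (V / 2) ^ (2 * k) = (56 * t) * (1 / (56 * t) * (V / 2) ^ (2 * k)) := by
        field_simp
      rw [h5]
      calc (56 * t) * (1 / (56 * t) * (V / 2) ^ (2 * k)) ≤ (56 * t) * (t * y ^ (k ^ 2)) := by
            gcongr
        _ = _ := by ring
    have hV0 : 0 < V := by linarith
    have h6 : 2 * k * Real.log (V / 2) ≤ Real.log 56 + 2 * y + k ^ 2 * Real.log y := by
      have h7 := Real.log_le_log (by positivity) h3
      rw [Real.log_rpow (by positivity), Real.log_mul (by positivity) (by positivity),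
        Real.log_mul (by norm_num) (by positivity), Real.log_pow, Real.log_rpow hy0, ← hy] at h7
      push_cast at h7
      linarith
    rw [Real.log_div hV0.ne' (by norm_num)] at h6
    -- divide by `2 k`
    have h8 : Real.log V ≤ Real.log 2 + (Real.log 56 + 2 * y) / (2 * k) + k / 2 * Real.log y := by
      have h9 : Real.log V - Real.log 2 ≤ (Real.log 56 + 2 * y + k ^ 2 * Real.log y) / (2 * k) := by
        rw [le_div_iff₀ (by positivity)]
        linarith
      have h10 : (Real.log 56 + 2 * y + k ^ 2 * Real.log y) / (2 * k) =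
          (Real.log 56 + 2 * y) / (2 * k) + k / 2 * Real.log y := by
        field_simp
      linarith
    have h11 : (Real.log 56 + 2 * y) / (2 * k) ≤ 2 * B' * Real.log y := by
      rw [div_le_iff₀ (by positivity)]
      have : 2 * B' * Real.log y * (2 * k) = 4 * y := by
        calc 2 * B' * Real.log y * (2 * k) = 4 * (k * (B' * Real.log y)) := by ring
          _ = 4 * y := by rw [hky]
      rw [this]
      linarith
    have h12 : k / 2 * Real.log y = (1 / (2 * A) + ε / 2) * y := by
      rw [← hB'i]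
      calc k / 2 * Real.log y = 1 / (2 * B') * (k * (B' * Real.log y)) := by field_simp
        _ = 1 / (2 * B') * y := by rw [hky]
    have h13 : Real.log 2 ≤ ε / 4 * y := by
      rw [div_le_iff₀ (by positivity)] at f5
      linarith
    have h14 : 2 * B' * Real.log y ≤ ε / 4 * y := by
      calc 2 * B' * Real.log y ≤ 2 * B' * (ε / (8 * B') * y) := by gcongr
        _ = ε / 4 * y := by field_simp; ring
    have h15 : Real.log V ≤ (1 / (2 * A) + ε) * y := by
      rw [h12] at h8
      linarith
    rw [← Real.exp_log hV0, Real.rpow_def_of_pos ht0, ← hy]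
    apply Real.exp_le_exp.2
    linarith

end

end Pool.Agent.TH158.LO
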