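import Pool.Agent.TH158.LO.Low

set_option autoImplicit false

/-!
Large orders: a sharper lower bound of the moment by a single value, by differences of high order.
-/

namespace Pool.Agent.TH158.LO

open Complex MeasureTheory Set
open Pool.Agent.TH158.FM

noncomputable section

/-- differences of order `m` -/
lemma diff_bound (m : ℕ) : ∀ (f : ℝ → ℂ), (∀ n : ℕ, ContDiff ℝ n f) → ∀ (a h D : ℝ), 0 ≤ h → 0 ≤ D →
    (∀ x ∈ Icc a (a + m * h), ‖iteratedDeriv m f x‖ ≤ D) → ‖(fwdDiff h)^[m] f a‖ ≤ h ^ m * D := by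
  induction m with
  | zero =>
    intro f _ a h D _ _ hD
    have := hD a (by simp)
    simpa using this
  | succ m ih =>
    intro f hf a h D hh hD0 hD
    rw [Function.iterate_succ_apply]
    have hg : ∀ n : ℕ, ContDiff ℝ n (fwdDiff h f) := by
      intro n
      have h1 : ContDiff ℝ n (fun x : ℝ => f (x + h)) := (hf n).comp (by fun_prop)
      exact h1.sub (hf n)
    have h2 := ih (fwdDiff h f) hg a h (h * D) hh (by positivity) (by
      intro x hx
      have e : iteratedDeriv m (fwdDiff h f) x = iteratedDeriv m f (x + h) - iteratedDeriv m f x := by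
        have h1 : ContDiff ℝ m (fun x : ℝ => f (x + h)) := (hf m).comp (by fun_prop)
        have h3 : fwdDiff h f = (fun x : ℝ => f (x + h)) - f := rfl
        rw [h3, iteratedDeriv_sub h1.contDiffAt (hf m).contDiffAt, iteratedDeriv_comp_add_const]
      rw [e]
      have h4 := Convex.norm_image_sub_le_of_norm_hasDerivWithin_le (𝕜 := ℝ) (C := D)
        (f := iteratedDeriv m f) (f' := iteratedDeriv (m + 1) f) (s := Icc x (x + h))
        (x := x) (y := x + h) ?_ ?_ (convex_Icc _ _) ⟨le_rfl, by linarith⟩ ⟨by linarith, le_rfl⟩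
      · rw [add_sub_cancel_left, Real.norm_eq_abs, abs_of_nonneg hh] at h4
        linarith
      · intro z _
        apply HasDerivAt.hasDerivWithinAt
        rw [iteratedDeriv_succ]
        exact ((hf (m + 1)).differentiable_iteratedDeriv m (by exact_mod_cast Nat.lt_succ_self m) z).hasDerivAt
      · intro z hz
        apply hD z
        have hm : (0:ℝ) ≤ m * h := by positivity
        constructor
        · exact hx.1.trans hz.1
        · have := hx.2
          have := hz.2
          push_cast
          linarith)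
    refine h2.trans (le_of_eq ?_)
    ring

/-- the value at the right end from the values at the other points -/
lemma value_le (m : ℕ) (hm : 1 ≤ m) (f : ℝ → ℂ) (hf : ∀ n : ℕ, ContDiff ℝ n f) (t h D B : ℝ)
    (hh : 0 ≤ h) (hD0 : 0 ≤ D) (hB : 0 ≤ B)
    (hD : ∀ x ∈ Icc (t - m * h) t, ‖iteratedDeriv m f x‖ ≤ D)
    (hfB : ∀ j ∈ Finset.Icc 1 m, ‖f (t - j * h)‖ ≤ B) :
    ‖f t‖ ≤ 2 ^ m * B + h ^ m * D := by
  have h1 := diff_bound m f hf (t - m * h) h D hh hD0 (by
    intro x hx
    apply hD x
    rwa [sub_add_cancel] at hx)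
  rw [fwdDiff_iter_eq_sum_shift, Finset.sum_range_succ] at h1
  simp only [Nat.sub_self, pow_zero, Nat.choose_self, Nat.cast_one, one_mul, one_smul, nsmul_eq_mul,
    sub_add_cancel] at h1
  have h2 : ‖∑ k ∈ Finset.range m, ((-1 : ℤ) ^ (m - k) * (m.choose k : ℤ)) • f (t - m * h + k * h)‖ ≤
      2 ^ m * B := by
    refine (norm_sum_le _ _).trans ?_
    have h3 : ∀ k ∈ Finset.range m, ‖((-1 : ℤ) ^ (m - k) * (m.choose k : ℤ)) • f (t - m * h + k * h)‖ ≤
        (m.choose k : ℝ) * B := by
      intro k hk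
      rw [Finset.mem_range] at hk
      have e : t - m * h + k * h = t - ((m - k : ℕ) : ℝ) * h := by
        rw [Nat.cast_sub hk.le]; ring
      rw [e, zsmul_eq_mul, norm_mul]
      have e2 : ‖(((-1 : ℤ) ^ (m - k) * (m.choose k : ℤ) : ℤ) : ℂ)‖ = (m.choose k : ℝ) := by
        push_cast
        rw [norm_mul, norm_pow, norm_neg, norm_one, one_pow, one_mul]
        simp
      rw [e2]
      gcongr
      apply hfB
      rw [Finset.mem_Icc]
      omega
    refine (Finset.sum_le_sum h3).trans ?_
    rw [← Finset.sum_mul]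
    gcongr
    have h4 : (∑ k ∈ Finset.range (m + 1), (m.choose k : ℝ)) = 2 ^ m := by
      exact_mod_cast Nat.sum_range_choose m
    rw [← h4, Finset.sum_range_succ]
    have : (0:ℝ) ≤ (m.choose m : ℝ) := by positivity
    linarith
  set S := ∑ k ∈ Finset.range m, ((-1 : ℤ) ^ (m - k) * (m.choose k : ℤ)) • f (t - m * h + k * h)
  calc ‖f t‖ = ‖(S + f t) - S‖ := by rw [add_sub_cancel_left]
    _ ≤ ‖S + f t‖ + ‖S‖ := norm_sub_le _ _
    _ ≤ h ^ m * D + 2 ^ m * B := add_le_add h1 h2
    _ = _ := by ring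

end

end Pool.Agent.TH158.LO
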