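import Pool.Agent.TH158.FM.Gen

set_option autoImplicit false

/-!
Large orders: from a growth exponent of zeta to the inequality for `T ≤ k ^ (B k)`.
-/

namespace Pool.Agent.TH158.LO

open Complex MeasureTheory Set
open Pool.Agent.TH158.FM

noncomputable section

/-- the inequality of Q2 for large `k` and `1000 ≤ T ≤ k ^ (B k)` -/
def Reg (B : ℝ) : Prop := ∃ k0 : ℝ, ∀ k T : ℝ, k0 ≤ k → 1000 ≤ T → T ≤ k ^ (B * k) →
  MM k T ≤ T * Real.log T ^ (k ^ 2)

/-- growth exponent -/
def GE (μ : ℝ) : Prop := ∀ ε : ℝ, 0 < ε → ∃ C : ℝ, ∀ t : ℝ, 1 ≤ t →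
  ‖riemannZeta (pt (1 / 2) t)‖ ≤ C * t ^ (μ + ε)

lemma Reg.mono {B B' : ℝ} (h : Reg B') (hB : B ≤ B') : Reg B := by
  obtain ⟨k0, h⟩ := h
  refine ⟨max k0 1, fun k T hk hT hTk => h k T (le_trans (le_max_left _ _) hk) hT (hTk.trans ?_)⟩
  have hk1 : 1 ≤ k := le_trans (le_max_right _ _) hk
  apply Real.rpow_le_rpow_of_exponent_le hk1
  gcongr

/-- `log y / y` on `[e, y1]`, `y1 = B k log k` -/
lemma ylog {y k B : ℝ} (hB : 0 < B) (hk : 1 < k) (hBk : 1 ≤ B * Real.log k) (hy : Real.exp 1 ≤ y)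
    (h : y ≤ B * k * Real.log k) : y ≤ B * k * Real.log y := by
  have hy0 : 0 < y := (Real.exp_pos 1).trans_le hy
  have hlk : 0 < Real.log k := Real.log_pos hk
  have hk0 : 0 < k := by linarith
  have hmono := Real.log_div_self_antitoneOn (Set.mem_ofPred.2 hy)
    (Set.mem_ofPred.2 (hy.trans h)) h
  simp only at hmono
  have h1 : Real.log k ≤ Real.log (B * k * Real.log k) := by
    apply Real.log_le_log hk0
    nlinarith
  have h2 : 1 / (B * k) ≤ Real.log y / y := by
    refine le_trans ?_ hmono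
    rw [div_le_div_iff₀ (by positivity) (by positivity)]
    have : 0 < B * k := by positivity
    nlinarith
  rw [div_le_div_iff₀ (by positivity) hy0] at h2
  linarith

/-- forward direction -/
theorem fwd (hzb : S_ZB) {A B : ℝ} (hA : 0 < A) (hBA : B < A) (hG : GE (1 / (2 * A))) : Reg B := by
  -- reduce to `B > 0`
  obtain ⟨B', hB', hBB'⟩ : ∃ B' : ℝ, B' = max B (A / 2) ∧ B ≤ B' := ⟨_, rfl, le_max_left _ _⟩
  have hB0 : 0 < B' := by rw [hB']; exact lt_of_lt_of_le (by linarith) (le_max_right _ _)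
  have hB1 : B' < A := by rw [hB']; exact max_lt hBA (by linarith)
  refine Reg.mono ?_ hBB'
  clear hB' hBB'
  obtain ⟨θ, hθ⟩ : ∃ θ : ℝ, θ = (1 + B' / A) / 2 := ⟨_, rfl⟩
  have hq : B' / A < 1 := (div_lt_one hA).2 hB1
  have hθ1 : θ < 1 := by rw [hθ]; linarith
  have hε : 0 < (1 - B' / A) / (4 * B') := div_pos (by linarith) (by positivity)
  obtain ⟨C, hC⟩ := hG _ hε
  obtain ⟨e, he⟩ : ∃ e : ℝ, e = 1 / (2 * A) + (1 - B' / A) / (4 * B') := ⟨_, rfl⟩
  rw [← he] at hC
  have he0 : 0 < e := by rw [he]; positivity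
  have heθ : 2 * e * B' = θ := by
    rw [he, hθ]
    field_simp
    ring
  obtain ⟨C1, hC1⟩ : ∃ C1 : ℝ, C1 = max C 4 := ⟨_, rfl⟩
  have hC14 : 4 ≤ C1 := by rw [hC1]; exact le_max_right _ _
  have hCC1 : C ≤ C1 := by rw [hC1]; exact le_max_left _ _
  have hC10 : 0 < C1 := by linarith
  refine ⟨max (max 2 (Real.exp (1 / B'))) (2 * Real.log C1 / (1 - θ)), fun k T hk hT hTk => ?_⟩
  have hk2 : 2 ≤ k := le_trans (le_trans (le_max_left _ _) (le_max_left _ _)) hk
  have hke : Real.exp (1 / B') ≤ k := le_trans (le_trans (le_max_right _ _) (le_max_left _ _)) hk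
  have hkC : 2 * Real.log C1 / (1 - θ) ≤ k := le_trans (le_max_right _ _) hk
  have hk0 : 0 < k := by linarith
  have hT0 : 0 < T := by linarith
  have hl := log_ge hT
  obtain ⟨y, hy⟩ : ∃ y : ℝ, y = Real.log T := ⟨_, rfl⟩
  rw [← hy] at hl
  have hy0 : 0 < y := by linarith
  have hey : Real.exp 1 ≤ y := by have := Real.exp_one_lt_d9; linarith
  have hly : 1 ≤ Real.log y := by rwa [Real.le_log_iff_exp_le hy0]
  have hBk : 1 ≤ B' * Real.log k := by
    have h1 : 1 / B' ≤ Real.log k := by rwa [Real.le_log_iff_exp_le hk0]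
    rw [div_le_iff₀ hB0] at h1
    linarith
  have hyk : y ≤ B' * k * Real.log k := by
    have := Real.log_le_log hT0 hTk
    rwa [Real.log_rpow hk0, ← hy] at this
  have h1 := ylog hB0 (by linarith) hBk hey hyk
  -- the sup
  have hsup : ∀ t ∈ Icc (0:ℝ) T, ‖riemannZeta (pt (1 / 2) t)‖ ≤ C1 * T ^ e := by
    intro t ht
    rcases le_total t 1 with h | h
    · refine (hzb t).trans ?_
      rw [abs_of_nonneg ht.1]
      have : 1 ≤ T ^ e := Real.one_le_rpow (by linarith) he0.le
      nlinarith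
    · refine (hC t h).trans ?_
      have : t ^ e ≤ T ^ e := Real.rpow_le_rpow (by linarith) ht.2 he0.le
      have : 0 ≤ t ^ e := by positivity
      gcongr
  have h2 : MM k T ≤ ∫ t in (0:ℝ)..T, (C1 * T ^ e) ^ (2 * k) := by
    unfold MM
    apply intervalIntegral.integral_mono_on hT0.le
    · exact (zeta_cont.norm.rpow_const (fun t => Or.inr (by linarith))).intervalIntegrable _ _
    · exact continuous_const.intervalIntegrable _ _
    · intro t ht
      exact Real.rpow_le_rpow (norm_nonneg _) (hsup t ht) (by linarith)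
  refine h2.trans ?_
  rw [intervalIntegral.integral_const, smul_eq_mul, sub_zero, ← hy]
  have h3 : (C1 * T ^ e) ^ (2 * k) ≤ y ^ (k ^ 2) := by
    rw [Real.rpow_def_of_pos (by positivity), Real.rpow_def_of_pos hy0,
      Real.log_mul hC10.ne' (by positivity), Real.log_rpow hT0, ← hy]
    apply Real.exp_le_exp.2
    have h4 : 2 * Real.log C1 ≤ (1 - θ) * k := by
      rw [div_le_iff₀ (by linarith)] at hkC
      linarith
    have h5 : 2 * e * y ≤ θ * k * Real.log y := by
      calc 2 * e * y ≤ 2 * e * (B' * k * Real.log y) := by gcongr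
        _ = θ * k * Real.log y := by rw [← heθ]; ring
    have h6 : (1 - θ) * k ≤ (1 - θ) * k * Real.log y := by
      have : 0 ≤ (1 - θ) * k := by
        apply mul_nonneg <;> linarith
      nlinarith
    have h7 : 2 * (Real.log C1 + e * y) ≤ k * Real.log y := by linarith
    calc (Real.log C1 + e * y) * (2 * k) = k * (2 * (Real.log C1 + e * y)) := by ring
      _ ≤ k * (k * Real.log y) := by gcongr
      _ = Real.log y * k ^ 2 := by ring
  gcongr

end

end Pool.Agent.TH158.LO
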