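import Pool.Agent.TH158.LO.Dif

set_option autoImplicit false

/-!
Large orders: a sharper lower bound of the moment by a single value.
-/

namespace Pool.Agent.TH158.LO

open Complex MeasureTheory Set
open Pool.Agent.TH158.FM

noncomputable section

lemma pt_ne (u : ℝ) : pt (1 / 2) u ≠ 1 := by
  intro h
  have := congrArg Complex.re h
  simp [pt] at this

lemma zeta_an (u : ℝ) : AnalyticAt ℂ riemannZeta (pt (1 / 2) u) := by
  have hd : DifferentiableOn ℂ riemannZeta {1}ᶜ := fun z hz =>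
    (differentiableAt_riemannZeta hz).differentiableWithinAt
  exact hd.analyticAt (isOpen_compl_singleton.mem_nhds (pt_ne u))

lemma pt_deriv (u : ℝ) : HasDerivAt (fun v : ℝ => pt (1 / 2) v) I u := by
  unfold pt
  have h3 := ((hasDerivAt_id u).ofReal_comp.mul_const I).const_add (((1 / 2 : ℝ)) : ℂ)
  simpa using h3

lemma line_smooth (n : ℕ) : ContDiff ℝ n (fun u : ℝ => riemannZeta (pt (1 / 2) u)) := by
  rw [contDiff_iff_contDiffAt]
  intro u
  have h1 : ContDiffAt ℝ n riemannZeta (pt (1 / 2) u) :=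
    (zeta_an u).contDiffAt.restrict_scalars ℝ
  have h2 : ContDiffAt ℝ n (fun u : ℝ => pt (1 / 2) u) u := by
    unfold pt
    apply ContDiff.contDiffAt
    exact contDiff_const.add ((Complex.ofRealCLM.contDiff).mul contDiff_const)
  exact ContDiffAt.comp u h1 h2

lemma line_deriv (m : ℕ) : iteratedDeriv m (fun u : ℝ => riemannZeta (pt (1 / 2) u)) =
    fun u : ℝ => I ^ m * iteratedDeriv m riemannZeta (pt (1 / 2) u) := by
  induction m with
  | zero => simp
  | succ m ih =>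
    rw [iteratedDeriv_succ, ih]
    funext u
    have h1 : HasDerivAt (iteratedDeriv m riemannZeta)
        (iteratedDeriv (m + 1) riemannZeta (pt (1 / 2) u)) (pt (1 / 2) u) := by
      rw [iteratedDeriv_succ]
      apply DifferentiableAt.hasDerivAt
      rw [iteratedDeriv_eq_iterate]
      exact ((zeta_an u).iterated_deriv m).differentiableAt
    have h2 := (HasDerivAt.comp u h1 (pt_deriv u)).const_mul (I ^ m)
    rw [show (fun u : ℝ => I ^ m * iteratedDeriv m riemannZeta (pt (1 / 2) u)) =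
      (fun y : ℝ => I ^ m * (iteratedDeriv m riemannZeta ∘ fun v : ℝ => pt (1 / 2) v) y) from rfl,
      h2.deriv]
    ring

lemma line_bound (m : ℕ) {u : ℝ} (hu : 2 ≤ u) :
    ‖iteratedDeriv m (fun u : ℝ => riemannZeta (pt (1 / 2) u)) u‖ ≤
      (m.factorial : ℝ) * 4 ^ m * (5 + 4 * u) := by
  rw [line_deriv]
  simp only
  rw [norm_mul, norm_pow, Complex.norm_I, one_pow, one_mul]
  have hre : (pt (1 / 2) u).re = 1 / 2 := by simp [pt]
  have him : (pt (1 / 2) u).im = u := by simp [pt]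
  have hn : ‖pt (1 / 2) u‖ ≤ 1 / 2 + u := by
    refine (Complex.norm_le_abs_re_add_abs_im _).trans ?_
    rw [hre, him, abs_of_nonneg (by linarith : (0:ℝ) ≤ u)]
    norm_num
  have hd : DiffContOnCl ℂ riemannZeta (Metric.ball (pt (1 / 2) u) (1 / 4)) := by
    apply DifferentiableOn.diffContOnCl
    rw [closure_ball _ (by norm_num)]
    intro s hs
    apply DifferentiableAt.differentiableWithinAt
    apply differentiableAt_riemannZeta
    intro h
    rw [h, Metric.mem_closedBall, dist_eq_norm] at hs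
    have := (Complex.abs_im_le_norm _).trans hs
    rw [sub_im, him, one_im, zero_sub, abs_neg, abs_of_nonneg (by linarith)] at this
    linarith
  have h := Complex.norm_iteratedDeriv_le_of_forall_mem_sphere_norm_le (C := 5 + 4 * u) m
    (by norm_num : (0:ℝ) < 1 / 4) hd (fun s hs => by
      rw [mem_sphere_iff_norm] at hs
      have h1 : |(s - pt (1 / 2) u).re| ≤ 1 / 4 := (Complex.abs_re_le_norm _).trans hs.le
      have h2 : |(s - pt (1 / 2) u).im| ≤ 1 / 4 := (Complex.abs_im_le_norm _).trans hs.le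
      rw [sub_re, hre, abs_le] at h1
      rw [sub_im, him, abs_le] at h2
      have h3 : ‖s‖ ≤ 3 / 4 + u := by
        calc ‖s‖ = ‖(s - pt (1 / 2) u) + pt (1 / 2) u‖ := by rw [sub_add_cancel]
          _ ≤ 1 / 4 + (1 / 2 + u) := (norm_add_le _ _).trans (add_le_add hs.le hn)
          _ = _ := by ring
      refine (zbound s (by linarith [h1.1]) (by linarith [h2.1])).trans ?_
      linarith)
  refine h.trans (le_of_eq ?_)
  rw [one_div, inv_pow]
  field_simp

/-- the constant -/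
def cm (m : ℕ) : ℝ := 9 * (m : ℝ) ^ m * ((m.factorial : ℝ) * 4 ^ m)

lemma cm_ge {m : ℕ} (hm : 1 ≤ m) : (m : ℝ) ^ m ≤ cm m ∧ (m.factorial : ℝ) * 4 ^ m * 9 ≤ cm m ∧ 1 ≤ cm m := by
  have h1 : (1:ℝ) ≤ (m : ℝ) ^ m := one_le_pow₀ (by exact_mod_cast hm)
  have h2 : (1:ℝ) ≤ (m.factorial : ℝ) := by exact_mod_cast Nat.one_le_iff_ne_zero.2 (Nat.factorial_ne_zero m)
  have h3 : (1:ℝ) ≤ 4 ^ m := one_le_pow₀ (by norm_num)
  have h4 : (1:ℝ) ≤ (m.factorial : ℝ) * 4 ^ m := by nlinarith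
  unfold cm
  refine ⟨?_, ?_, ?_⟩
  · have : (m : ℝ) ^ m * 1 ≤ (m : ℝ) ^ m * ((m.factorial : ℝ) * 4 ^ m) := by gcongr
    nlinarith
  · nlinarith
  · nlinarith

/-- one value bounds the moment from below, with a small loss -/
theorem lowM {m : ℕ} (hm : 1 ≤ m) {t k : ℝ} (ht : 4 ≤ t) (hk : 0 < k)
    (hV : 2 < ‖riemannZeta (pt (1 / 2) t)‖) :
    (cm m * t) ^ (-(1 / (m : ℝ))) * (‖riemannZeta (pt (1 / 2) t)‖ / 2 ^ (m + 1)) ^ (2 * k) ≤
      m * MM k t := by
  obtain ⟨V, hVd⟩ : ∃ V : ℝ, V = ‖riemannZeta (pt (1 / 2) t)‖ := ⟨_, rfl⟩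
  obtain ⟨c1, c2, c3⟩ := cm_ge hm
  have hm0 : (0:ℝ) < m := by exact_mod_cast hm
  have hm1 : (1:ℝ) ≤ m := by exact_mod_cast hm
  have ht0 : 0 < t := by linarith
  have hct : 0 < cm m * t := by positivity
  obtain ⟨r, hr⟩ : ∃ r : ℝ, r = (cm m * t) ^ (-(1 / (m : ℝ))) := ⟨_, rfl⟩
  have hr0 : 0 < r := by rw [hr]; positivity
  have hrm : r ^ m * (cm m * t) = 1 := by
    rw [hr, ← Real.rpow_natCast, ← Real.rpow_mul hct.le]
    have : -(1 / (m : ℝ)) * (m : ℝ) = -1 := by field_simp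
    rw [this, Real.rpow_neg_one]
    field_simp
  have hmr : m * r ≤ 1 := by
    have h1 : (m * r) ^ m ≤ 1 ^ m := by
      rw [mul_pow, one_pow, ← hrm, mul_comm]
      gcongr
      nlinarith
    exact le_of_pow_le_pow_left₀ (by omega) (by norm_num) h1
  rw [← hr, ← hVd]
  rw [← hVd] at hV
  obtain ⟨D, hD⟩ : ∃ D : ℝ, D = (m.factorial : ℝ) * 4 ^ m * (9 * t) := ⟨_, rfl⟩
  have hD0 : 0 ≤ D := by rw [hD]; positivity
  have hrD : r ^ m * D ≤ 1 := by
    rw [← hrm]
    gcongr
    rw [hD]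
    nlinarith
  obtain ⟨B, hB⟩ : ∃ B : ℝ, B = V / 2 ^ (m + 1) := ⟨_, rfl⟩
  have hB0 : 0 ≤ B := by rw [hB]; positivity
  rw [← hB]
  obtain ⟨F, hF⟩ : ∃ F : ℝ → ℝ, F = fun u => ‖riemannZeta (pt (1 / 2) u)‖ ^ (2 * k) := ⟨_, rfl⟩
  have hFc : Continuous F := by
    rw [hF]
    exact zeta_cont.norm.rpow_const (fun t => Or.inr (by linarith))
  have hF0 : ∀ u, 0 ≤ F u := fun u => by rw [hF]; positivity
  have key : ∀ h ∈ Icc (0:ℝ) r, B ^ (2 * k) ≤ ∑ j ∈ Finset.Icc 1 m, F (t - j * h) := by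
    intro h hh
    have hex : ∃ j ∈ Finset.Icc 1 m, B ≤ ‖riemannZeta (pt (1 / 2) (t - j * h))‖ := by
      by_contra hcon
      push Not at hcon
      have h1 := value_le m hm (fun u : ℝ => riemannZeta (pt (1 / 2) u)) line_smooth t h D B hh.1 hD0
        hB0 (by
          intro x hx
          have h2 : m * h ≤ 1 := le_trans (by gcongr; exact hh.2) hmr
          refine (line_bound m (by linarith [hx.1] : 2 ≤ x)).trans ?_
          rw [hD]
          gcongr
          linarith [hx.2]) (fun j hj => (hcon j hj).le)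
      rw [← hVd] at h1
      have h3 : h ^ m * D ≤ 1 := le_trans (by
        have := hh.1
        have := hh.2
        gcongr) hrD
      have h4 : 2 ^ m * B = V / 2 := by
        rw [hB, pow_succ]; field_simp
      rw [h4] at h1
      linarith
    obtain ⟨j, hj, hjB⟩ := hex
    refine le_trans ?_ (Finset.single_le_sum (fun i _ => hF0 _) hj)
    rw [hF]
    exact Real.rpow_le_rpow hB0 hjB (by linarith)
  have h5 : ∫ h in (0:ℝ)..r, B ^ (2 * k) ≤ ∫ h in (0:ℝ)..r, ∑ j ∈ Finset.Icc 1 m, F (t - j * h) := by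
    apply intervalIntegral.integral_mono_on hr0.le
    · exact continuous_const.intervalIntegrable _ _
    · apply Continuous.intervalIntegrable
      apply continuous_finsetSum
      intro j _
      exact hFc.comp (by fun_prop)
    · exact key
  have hsum : ∫ h in (0:ℝ)..r, ∑ j ∈ Finset.Icc 1 m, F (t - j * h) =
      ∑ j ∈ Finset.Icc 1 m, ∫ h in (0:ℝ)..r, F (t - j * h) := by
    apply intervalIntegral.integral_finsetSum
    intro j _
    exact Continuous.intervalIntegrable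
      (hFc.comp (by fun_prop : Continuous fun h : ℝ => t - (j : ℝ) * h)) _ _
  rw [intervalIntegral.integral_const, smul_eq_mul, sub_zero, hsum] at h5
  refine h5.trans ?_
  have h6 : ∀ j ∈ Finset.Icc 1 m, ∫ h in (0:ℝ)..r, F (t - j * h) ≤ MM k t := by
    intro j hj
    rw [Finset.mem_Icc] at hj
    have hj0 : (0:ℝ) < j := by exact_mod_cast (by omega : 0 < j)
    have hj1 : (1:ℝ) ≤ j := by exact_mod_cast hj.1
    have hjm : (j:ℝ) ≤ m := by exact_mod_cast hj.2
    rw [intervalIntegral.integral_comp_sub_mul _ hj0.ne', smul_eq_mul]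
    have hjr : (j:ℝ) * r ≤ 1 := le_trans (by gcongr) hmr
    have e1 : t - (j:ℝ) * 0 = t := by ring
    rw [e1]
    have h7 : 0 ≤ ∫ u in (t - (j:ℝ) * r)..t, F u :=
      intervalIntegral.integral_nonneg (by nlinarith) (fun u _ => hF0 u)
    have h8 : ∫ u in (t - (j:ℝ) * r)..t, F u ≤ MM k t := by
      unfold MM
      have e2 : (∫ u in (0:ℝ)..t, ‖riemannZeta (pt (1 / 2) u)‖ ^ (2 * k)) = ∫ u in (0:ℝ)..t, F u := by
        rw [hF]
      rw [e2, ← intervalIntegral.integral_add_adjacent_intervals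
        (hFc.intervalIntegrable 0 (t - (j:ℝ) * r)) (hFc.intervalIntegrable (t - (j:ℝ) * r) t)]
      have : 0 ≤ ∫ u in (0:ℝ)..(t - (j:ℝ) * r), F u :=
        intervalIntegral.integral_nonneg (by linarith) (fun u _ => hF0 u)
      linarith
    have h9 : (j:ℝ)⁻¹ ≤ 1 := inv_le_one_of_one_le₀ hj1
    calc (j:ℝ)⁻¹ * ∫ u in (t - (j:ℝ) * r)..t, F u ≤ 1 * ∫ u in (t - (j:ℝ) * r)..t, F u := by gcongr
      _ ≤ MM k t := by rw [one_mul]; exact h8
  refine (Finset.sum_le_sum h6).trans (le_of_eq ?_)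
  rw [Finset.sum_const, Nat.card_Icc, nsmul_eq_mul]
  simp

end

end Pool.Agent.TH158.LO
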