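import Pool.Agent.TH158.LO.Sq

set_option autoImplicit false

/-!
Large orders: what Q2 would give for the size of zeta.
-/

namespace Pool.Agent.TH158.LO

open Complex MeasureTheory Set
open Pool.Agent.TH158.FM

noncomputable section

theorem nec (hzb : S_ZB) (h : ∀ k T : ℝ, 2 ≤ k → 1000 < T → MM k T ≤ T * Real.log T ^ (k ^ 2))
    (t : ℝ) (ht' : 1000 < t) : ‖riemannZeta (pt (1 / 2) t)‖ ≤
      6 * Real.exp (Real.sqrt (2 * (Real.log t * Real.log (Real.log t)))) := by
  have ht : 1000 ≤ t := ht'.le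
  have hl := log_ge ht
  obtain ⟨y, hy⟩ : ∃ y : ℝ, y = Real.log t := ⟨_, rfl⟩
  obtain ⟨g1, g2, g3, g4, g5⟩ := rw_facts (hy ▸ hl)
  have hy0 : 0 < y := by rw [hy]; linarith
  obtain ⟨V, hVd⟩ : ∃ V : ℝ, V = ‖riemannZeta (pt (1 / 2) t)‖ := ⟨_, rfl⟩
  rw [← hy, ← hVd]
  rcases le_total V 1 with hV | hV
  · have : 1 ≤ Real.exp (Real.sqrt (2 * (y * Real.log y))) := Real.one_le_exp (by positivity)
    linarith
  have hV0 : 0 < V := by linarith
  -- the order
  obtain ⟨k, hk⟩ : ∃ k : ℝ, k = Real.sqrt (2 * (y / Real.log y)) := ⟨_, rfl⟩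
  have hly0 : 0 < Real.log y := by linarith
  have hk2 : 2 ≤ k := by
    rw [hk, Real.le_sqrt (by norm_num) (by positivity)]
    have h1 : Real.log y ≤ y / 2 := by
      have h2 : Real.log y ≤ y / Real.exp 1 := by
        have h3 := Real.add_one_le_exp (Real.log y - 1)
        have h4 : Real.exp (Real.log y - 1) = y / Real.exp 1 := by
          rw [Real.exp_sub, Real.exp_log hy0]
        rw [h4] at h3
        linarith
      have h5 := Real.exp_one_gt_d9
      refine h2.trans ?_
      apply div_le_div_of_nonneg_left hy0.le (by norm_num) (by linarith)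
    have h6 : 2 ≤ y / Real.log y := by
      rw [le_div_iff₀ hly0]
      linarith
    linarith
  have hk0 : 0 < k := by linarith
  have hkk : k ^ 2 * Real.log y = 2 * y := by
    rw [hk, Real.sq_sqrt (by positivity)]
    field_simp
  obtain ⟨W, hW⟩ : ∃ W : ℝ, W = Real.sqrt (2 * (y * Real.log y)) := ⟨_, rfl⟩
  have hkW : k * Real.log y = W := by
    rw [hW, hk]
    have e : 2 * (y * Real.log y) = 2 * (y / Real.log y) * Real.log y ^ 2 := by field_simp
    rw [e, Real.sqrt_mul (by positivity : (0:ℝ) ≤ 2 * (y / Real.log y)) (Real.log y ^ 2), Real.sqrt_sq hly0.le]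
  have h1 := point hzb ht hk0 (h k t hk2 ht') (by rwa [← hVd])
  rw [← hVd, ← hy] at h1
  have e1 : (Real.log 56 + 2 * y) / (2 * k) = Real.log 56 / (2 * k) + W / 2 := by
    rw [← hkk, ← hkW]
    field_simp
  have e2 : k / 2 * Real.log y = W / 2 := by rw [← hkW]; ring
  rw [e1, e2] at h1
  have h56 : 0 < Real.log 56 := Real.log_pos (by norm_num)
  have e3 : Real.log 56 / (2 * k) ≤ Real.log 56 / 4 := by
    apply div_le_div_of_nonneg_left h56.le (by norm_num) (by linarith)
  have e4 : Real.log 2 + Real.log 56 / 4 ≤ Real.log 6 := by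
    have : 4 * Real.log 2 + Real.log 56 ≤ 4 * Real.log 6 := by
      have f1 : 4 * Real.log 2 = Real.log (2 ^ 4) := by rw [Real.log_pow]; norm_num
      have f2 : 4 * Real.log 6 = Real.log (6 ^ 4) := by rw [Real.log_pow]; norm_num
      rw [f1, f2, ← Real.log_mul (by norm_num) (by norm_num)]
      apply Real.log_le_log (by norm_num)
      norm_num
    linarith
  have h2 : Real.log V ≤ Real.log 6 + W := by linarith
  rw [← hW]
  calc V = Real.exp (Real.log V) := (Real.exp_log hV0).symm
    _ ≤ Real.exp (Real.log 6 + W) := Real.exp_le_exp.2 h2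
    _ = 6 * Real.exp W := by rw [Real.exp_add, Real.exp_log (by norm_num)]

end

end Pool.Agent.TH158.LO
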