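import Pool.Agent.TH158.LO.Low

set_option autoImplicit false

/-!
Large orders: the region `k ≥ C √(log T / log log T)` and the bound
`|ζ(1/2 + it)| ≤ exp (C √(log t log log t))`.
-/

namespace Pool.Agent.TH158.LO

open Complex MeasureTheory Set
open Pool.Agent.TH158.FM

noncomputable section

/-- from one moment to the pointwise bound -/
theorem point (hzb : S_ZB) {t k : ℝ} (ht : 1000 ≤ t) (hk : 0 < k)
    (h : MM k t ≤ t * Real.log t ^ (k ^ 2)) (hV : 1 ≤ ‖riemannZeta (pt (1 / 2) t)‖) :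
    Real.log ‖riemannZeta (pt (1 / 2) t)‖ ≤
      Real.log 2 + (Real.log 56 + 2 * Real.log t) / (2 * k) + k / 2 * Real.log (Real.log t) := by
  have ht0 : 0 < t := by linarith
  have hl := log_ge ht
  obtain ⟨y, hy⟩ : ∃ y : ℝ, y = Real.log t := ⟨_, rfl⟩
  rw [← hy] at hl h ⊢
  have hy0 : 0 < y := by linarith
  have h2 := low hzb (by linarith : 3 ≤ t) hk hV
  obtain ⟨V, hVd⟩ : ∃ V : ℝ, V = ‖riemannZeta (pt (1 / 2) t)‖ := ⟨_, rfl⟩
  rw [← hVd] at h2 hV ⊢
  have h3 : (V / 2) ^ (2 * k) ≤ 56 * t ^ 2 * y ^ (k ^ 2) := by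
    have h4 := h2.trans h
    have h5 : (V / 2) ^ (2 * k) = (56 * t) * (1 / (56 * t) * (V / 2) ^ (2 * k)) := by
      field_simp
    rw [h5]
    calc (56 * t) * (1 / (56 * t) * (V / 2) ^ (2 * k)) ≤ (56 * t) * (t * y ^ (k ^ 2)) := by
          gcongr
      _ = _ := by ring
  have hV0 : 0 < V := by linarith
  have h6 : 2 * k * Real.log (V / 2) ≤ Real.log 56 + 2 * y + k ^ 2 * Real.log y := by
    have h7 := Real.log_le_log (by positivity) h3
    rw [Real.log_rpow (by positivity), Real.log_mul (by positivity) (by positivity),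
      Real.log_mul (by norm_num) (by positivity), Real.log_pow, Real.log_rpow hy0, ← hy] at h7
    push_cast at h7
    linarith
  rw [Real.log_div hV0.ne' (by norm_num)] at h6
  have h9 : Real.log V - Real.log 2 ≤ (Real.log 56 + 2 * y + k ^ 2 * Real.log y) / (2 * k) := by
    rw [le_div_iff₀ (by positivity)]
    linarith
  have h10 : (Real.log 56 + 2 * y + k ^ 2 * Real.log y) / (2 * k) =
      (Real.log 56 + 2 * y) / (2 * k) + k / 2 * Real.log y := by
    field_simp
  linarith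

/-- from a bound for zeta on `[0, T]` to the moment -/
theorem mom {T k : ℝ} (hT : 1000 ≤ T) (hk : 0 < k)
    (h : ∀ t ∈ Icc (0:ℝ) T, ‖riemannZeta (pt (1 / 2) t)‖ ≤ Real.log T ^ (k / 2)) :
    MM k T ≤ T * Real.log T ^ (k ^ 2) := by
  have hT0 : 0 < T := by linarith
  have hl := log_ge hT
  have hl0 : 0 < Real.log T := by linarith
  have h2 : MM k T ≤ ∫ t in (0:ℝ)..T, (Real.log T ^ (k / 2)) ^ (2 * k) := by
    unfold MM
    apply intervalIntegral.integral_mono_on hT0.le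
    · exact (zeta_cont.norm.rpow_const (fun t => Or.inr (by linarith))).intervalIntegrable _ _
    · exact continuous_const.intervalIntegrable _ _
    · intro t ht
      exact Real.rpow_le_rpow (norm_nonneg _) (h t ht) (by linarith)
  refine h2.trans (le_of_eq ?_)
  rw [intervalIntegral.integral_const, smul_eq_mul, sub_zero, ← Real.rpow_mul hl0.le]
  congr 2
  ring

lemma rw_facts {y : ℝ} (hy : (69:ℝ) / 10 ≤ y) :
    1 ≤ Real.log y ∧ Real.sqrt (y / Real.log y) * Real.log y = Real.sqrt (y * Real.log y) ∧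
    Real.sqrt (y / Real.log y) * Real.sqrt (y * Real.log y) = y ∧
    1 ≤ Real.sqrt (y / Real.log y) ∧ (36:ℝ) / 10 ≤ Real.sqrt (y * Real.log y) := by
  have hy0 : 0 < y := by linarith
  have h19 : (19:ℝ) / 10 ≤ Real.log y := by
    refine le_trans ?_ (Real.log_le_log (by norm_num) hy)
    rw [Real.le_log_iff_exp_le (by norm_num)]
    have he := Real.exp_one_lt_d9
    have h1 : Real.exp (19 / 10) ^ 10 ≤ (69 / 10 : ℝ) ^ 10 := by
      rw [← Real.exp_nat_mul]
      have : ((10:ℕ):ℝ) * (19 / 10) = ((19:ℕ):ℝ) * 1 := by norm_num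
      rw [this, Real.exp_nat_mul]
      calc Real.exp 1 ^ 19 ≤ (2.7182818286 : ℝ) ^ 19 := by gcongr
        _ ≤ (69 / 10) ^ 10 := by norm_num
    exact le_of_pow_le_pow_left₀ (by norm_num) (by norm_num) h1
  have hl0 : 0 < Real.log y := by linarith
  have hly : Real.log y ≤ y := (Real.log_le_sub_one_of_pos hy0).trans (by linarith)
  refine ⟨by linarith, ?_, ?_, ?_, ?_⟩
  · have e : y * Real.log y = (y / Real.log y) * Real.log y ^ 2 := by field_simp
    rw [e, Real.sqrt_mul (by positivity), Real.sqrt_sq hl0.le]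
  · rw [← Real.sqrt_mul (by positivity)]
    have e : y / Real.log y * (y * Real.log y) = y ^ 2 := by field_simp
    rw [e, Real.sqrt_sq hy0.le]
  · rw [Real.one_le_sqrt, one_le_div hl0]
    exact hly
  · rw [Real.le_sqrt (by norm_num) (by positivity)]
    calc ((36:ℝ) / 10) ^ 2 ≤ 69 / 10 * (19 / 10) := by norm_num
      _ ≤ y * Real.log y := by gcongr

theorem sq_fwd (hzb : S_ZB) (h : ∃ C : ℝ, ∀ k T : ℝ, 1000 ≤ T →
      C * Real.sqrt (Real.log T / Real.log (Real.log T)) ≤ k → MM k T ≤ T * Real.log T ^ (k ^ 2)) :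
    ∃ C : ℝ, ∀ t : ℝ, 1000 ≤ t → ‖riemannZeta (pt (1 / 2) t)‖ ≤
      Real.exp (C * Real.sqrt (Real.log t * Real.log (Real.log t))) := by
  obtain ⟨C, hC⟩ := h
  obtain ⟨C1, hC1⟩ : ∃ C1 : ℝ, C1 = max C 1 := ⟨_, rfl⟩
  have hC11 : 1 ≤ C1 := by rw [hC1]; exact le_max_right _ _
  have hCC : C ≤ C1 := by rw [hC1]; exact le_max_left _ _
  have hl2 : 0 < Real.log 2 := Real.log_pos (by norm_num)
  have hl56 : 0 < Real.log 56 := Real.log_pos (by norm_num)
  refine ⟨Real.log 2 + Real.log 56 + 1 / C1 + C1 / 2, fun t ht => ?_⟩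
  have hl := log_ge ht
  obtain ⟨y, hy⟩ : ∃ y : ℝ, y = Real.log t := ⟨_, rfl⟩
  obtain ⟨g1, g2, g3, g4, g5⟩ := rw_facts (hy ▸ hl)
  have hC' := hC (C1 * Real.sqrt (y / Real.log y)) t ht (by
    rw [← hy]
    gcongr)
  have hk : 0 < C1 * Real.sqrt (y / Real.log y) := by positivity
  obtain ⟨V, hVd⟩ : ∃ V : ℝ, V = ‖riemannZeta (pt (1 / 2) t)‖ := ⟨_, rfl⟩
  rw [← hy, ← hVd]
  rcases le_total V 1 with hV | hV
  · exact hV.trans (Real.one_le_exp (by positivity))
  have h1 := point hzb ht hk hC' (by rwa [← hVd])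
  rw [← hVd, ← hy] at h1
  have hV0 : 0 < V := by linarith
  rw [← Real.exp_log hV0]
  apply Real.exp_le_exp.2
  obtain ⟨r, hr⟩ : ∃ r : ℝ, r = Real.sqrt (y / Real.log y) := ⟨_, rfl⟩
  obtain ⟨w, hw⟩ : ∃ w : ℝ, w = Real.sqrt (y * Real.log y) := ⟨_, rfl⟩
  rw [← hr, ← hw] at g2 g3
  rw [← hr] at g4 h1
  rw [← hw] at g5 ⊢
  have hr0 : 0 < r := by linarith
  have hC10 : 0 < C1 := by linarith
  have e1 : (Real.log 56 + 2 * y) / (2 * (C1 * r)) = Real.log 56 / (2 * (C1 * r)) + 1 / C1 * w := by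
    have : 2 * y = 2 * (r * w) := by rw [g3]
    rw [this]
    field_simp
  have e2 : C1 * r / 2 * Real.log y = C1 / 2 * w := by
    rw [← g2]; ring
  have e3 : Real.log 56 / (2 * (C1 * r)) ≤ Real.log 56 * w := by
    have h5 : Real.log 56 / (2 * (C1 * r)) ≤ Real.log 56 := by
      apply div_le_self hl56.le
      nlinarith
    nlinarith
  rw [e1, e2] at h1
  have e4 : Real.log 2 ≤ Real.log 2 * w := by nlinarith
  nlinarith

theorem sq_bwd (hzb : S_ZB) (h : ∃ C : ℝ, ∀ t : ℝ, 1000 ≤ t → ‖riemannZeta (pt (1 / 2) t)‖ ≤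
      Real.exp (C * Real.sqrt (Real.log t * Real.log (Real.log t)))) :
    ∃ C : ℝ, ∀ k T : ℝ, 1000 ≤ T →
      C * Real.sqrt (Real.log T / Real.log (Real.log T)) ≤ k → MM k T ≤ T * Real.log T ^ (k ^ 2) := by
  obtain ⟨C, hC⟩ := h
  obtain ⟨C1, hC1⟩ : ∃ C1 : ℝ, C1 = max C 2 := ⟨_, rfl⟩
  have hC12 : 2 ≤ C1 := by rw [hC1]; exact le_max_right _ _
  have hCC : C ≤ C1 := by rw [hC1]; exact le_max_left _ _
  refine ⟨2 * C1, fun k T hT hk => ?_⟩
  have hT0 : 0 < T := by linarith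
  have hl := log_ge hT
  obtain ⟨y, hy⟩ : ∃ y : ℝ, y = Real.log T := ⟨_, rfl⟩
  obtain ⟨g1, g2, g3, g4, g5⟩ := rw_facts (hy ▸ hl)
  rw [← hy] at hk
  have hy0 : 0 < y := by rw [hy]; linarith
  have hk0 : 0 < k := lt_of_lt_of_le (by positivity) hk
  have hfin : Real.exp (C1 * Real.sqrt (y * Real.log y)) ≤ y ^ (k / 2) := by
    rw [Real.rpow_def_of_pos hy0]
    apply Real.exp_le_exp.2
    rw [← g2]
    have h1 : 2 * C1 * Real.sqrt (y / Real.log y) * Real.log y ≤ k * Real.log y := by gcongr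
    linarith
  apply mom hT hk0
  intro t ht
  rw [← hy]
  refine le_trans ?_ hfin
  rcases le_total t 1000 with h1 | h1
  · refine (hzb t).trans ?_
    rw [abs_of_nonneg ht.1]
    have h2 : Real.exp (69 / 10) ≤ Real.exp (C1 * Real.sqrt (y * Real.log y)) := by
      apply Real.exp_le_exp.2
      nlinarith
    have h2' : Real.exp (72 / 10) ≤ Real.exp (C1 * Real.sqrt (y * Real.log y)) := by
      apply Real.exp_le_exp.2
      nlinarith
    refine le_trans ?_ h2'
    have he := Real.exp_one_gt_d9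
    have h3 : (1003:ℝ) ≤ Real.exp (72 / 10) := by
      have h4 : Real.exp (72 / 10) = Real.exp 1 ^ 7 * Real.exp (2 / 10) := by
        rw [← Real.exp_nat_mul, ← Real.exp_add]; norm_num
      rw [h4]
      have h5 : (1:ℝ) ≤ Real.exp (2 / 10) := Real.one_le_exp (by norm_num)
      calc (1003:ℝ) ≤ 2.7182818283 ^ 7 * 1 := by norm_num
        _ ≤ _ := by gcongr
    linarith
  · refine (hC t h1).trans ?_
    apply Real.exp_le_exp.2
    have hlt : Real.log t ≤ y := by rw [hy]; exact Real.log_le_log (by linarith) ht.2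
    have hlt0 : 69 / 10 ≤ Real.log t := log_ge h1
    have hll : Real.log (Real.log t) ≤ Real.log y := Real.log_le_log (by linarith) hlt
    have hll0 : 0 ≤ Real.log (Real.log t) := Real.log_nonneg (by linarith)
    have h2 : Real.sqrt (Real.log t * Real.log (Real.log t)) ≤ Real.sqrt (y * Real.log y) := by
      apply Real.sqrt_le_sqrt
      gcongr
    have h3 : 0 ≤ Real.sqrt (Real.log t * Real.log (Real.log t)) := Real.sqrt_nonneg _
    calc C * Real.sqrt (Real.log t * Real.log (Real.log t))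
        ≤ C1 * Real.sqrt (Real.log t * Real.log (Real.log t)) := by gcongr
      _ ≤ C1 * Real.sqrt (y * Real.log y) := by gcongr

end

end Pool.Agent.TH158.LO
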