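import Pool.Agent.TH158.LO.LowM
import Pool.Agent.TH158.LO.Sq
import Pool.Agent.TH158.LO.Bwd

set_option autoImplicit false

/-!
Large orders: what Q2 would give for the size of zeta, with the constant `1 + ε`.
-/

namespace Pool.Agent.TH158.LO

open Complex MeasureTheory Set Filter Topology
open Pool.Agent.TH158.FM

noncomputable section

/-- from one moment to the pointwise bound, with a small loss -/
theorem pointM {m : ℕ} (hm : 1 ≤ m) {t k : ℝ} (ht : 1000 ≤ t) (hk : 1 ≤ k)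
    (h : MM k t ≤ t * Real.log t ^ (k ^ 2)) (hV : 2 < ‖riemannZeta (pt (1 / 2) t)‖) :
    Real.log ‖riemannZeta (pt (1 / 2) t)‖ ≤
      ((m + 1) * Real.log 2 + Real.log m + Real.log (cm m)) +
        (1 + 1 / (m : ℝ)) * Real.log t / (2 * k) + k / 2 * Real.log (Real.log t) := by
  have hk0 : 0 < k := by linarith
  have ht0 : 0 < t := by linarith
  have hl := log_ge ht
  obtain ⟨c1, c2, c3⟩ := cm_ge hm
  have hm0 : (0:ℝ) < m := by exact_mod_cast hm
  have hm1 : (1:ℝ) ≤ m := by exact_mod_cast hm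
  have hc0 : 0 < cm m := by linarith
  have h2 := lowM hm (by linarith : 4 ≤ t) hk0 hV
  obtain ⟨y, hy⟩ : ∃ y : ℝ, y = Real.log t := ⟨_, rfl⟩
  rw [← hy] at hl h ⊢
  have hy0 : 0 < y := by linarith
  obtain ⟨V, hVd⟩ : ∃ V : ℝ, V = ‖riemannZeta (pt (1 / 2) t)‖ := ⟨_, rfl⟩
  rw [← hVd] at h2 hV ⊢
  have hV0 : 0 < V := by linarith
  have h3 : (cm m * t) ^ (-(1 / (m : ℝ))) * (V / 2 ^ (m + 1)) ^ (2 * k) ≤ m * (t * y ^ (k ^ 2)) :=
    h2.trans (by gcongr)
  have h4 := Real.log_le_log (by positivity) h3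
  rw [Real.log_mul (by positivity) (by positivity), Real.log_rpow (by positivity),
    Real.log_mul hc0.ne' ht0.ne', Real.log_rpow (by positivity),
    Real.log_div hV0.ne' (by positivity), Real.log_pow, Real.log_mul hm0.ne' (by positivity),
    Real.log_mul ht0.ne' (by positivity), Real.log_rpow hy0, ← hy] at h4
  push_cast at h4
  have hlm : 0 ≤ Real.log m := Real.log_nonneg hm1
  have hlc : 0 ≤ Real.log (cm m) := Real.log_nonneg c3
  -- divide by `2 k`
  have h5 : Real.log V - (m + 1) * Real.log 2 ≤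
      (Real.log m + y + k ^ 2 * Real.log y + 1 / (m : ℝ) * (Real.log (cm m) + y)) / (2 * k) := by
    rw [le_div_iff₀ (by positivity)]
    linarith
  have h6 : (Real.log m + y + k ^ 2 * Real.log y + 1 / (m : ℝ) * (Real.log (cm m) + y)) / (2 * k) =
      (Real.log m + 1 / (m : ℝ) * Real.log (cm m)) / (2 * k) + (1 + 1 / (m : ℝ)) * y / (2 * k) +
        k / 2 * Real.log y := by
    field_simp
    ring
  have h7 : (Real.log m + 1 / (m : ℝ) * Real.log (cm m)) / (2 * k) ≤ Real.log m + Real.log (cm m) := by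
    have h8 : 1 / (m : ℝ) * Real.log (cm m) ≤ 1 * Real.log (cm m) := by
      gcongr
      rw [div_le_one hm0]
      exact hm1
    have h9 : 0 ≤ Real.log m + Real.log (cm m) := by positivity
    calc (Real.log m + 1 / (m : ℝ) * Real.log (cm m)) / (2 * k)
        ≤ (Real.log m + Real.log (cm m)) / (2 * k) := by
          gcongr
          linarith
      _ ≤ (Real.log m + Real.log (cm m)) / 1 := by
          apply div_le_div_of_nonneg_left h9 (by norm_num) (by linarith)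
      _ = _ := by ring
  linarith

theorem nec2 (h : ∀ k T : ℝ, 2 ≤ k → 1000 < T → MM k T ≤ T * Real.log T ^ (k ^ 2)) (ε : ℝ)
    (hε : 0 < ε) : ∃ t0 : ℝ, ∀ t : ℝ, t0 ≤ t → ‖riemannZeta (pt (1 / 2) t)‖ ≤
      Real.exp ((1 + ε) * Real.sqrt (Real.log t * Real.log (Real.log t))) := by
  obtain ⟨m, hm⟩ : ∃ m : ℕ, m = ⌈1 / ε⌉₊ := ⟨_, rfl⟩
  have hm' : 1 / ε ≤ m := by rw [hm]; exact Nat.le_ceil _
  have hm0 : (0:ℝ) < m := lt_of_lt_of_le (by positivity) hm'
  have hm1 : 1 ≤ m := by exact_mod_cast hm0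
  have hmε : 1 / (m : ℝ) ≤ ε := by
    rw [div_le_iff₀ hm0]
    rw [div_le_iff₀ hε] at hm'
    linarith
  obtain ⟨K, hK⟩ : ∃ K : ℝ, K = (m + 1) * Real.log 2 + Real.log m + Real.log (cm m) := ⟨_, rfl⟩
  have e1 : ∀ᶠ y : ℝ in atTop, Real.log y ≤ (1 / 4) * y := log_small (by norm_num)
  have e2 : ∀ᶠ y : ℝ in atTop, (K / (ε / 2)) ^ 2 ≤ y := eventually_ge_atTop _
  have E := Real.tendsto_log_atTop.eventually (e1.and e2)
  obtain ⟨t0, ht0⟩ := eventually_atTop.1 (E.and (eventually_gt_atTop (1000:ℝ)))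
  refine ⟨t0, fun t ht => ?_⟩
  obtain ⟨⟨f1, f2⟩, f3⟩ := ht0 t ht
  have hl := log_ge f3.le
  obtain ⟨y, hy⟩ : ∃ y : ℝ, y = Real.log t := ⟨_, rfl⟩
  obtain ⟨g1, g2, g3, g4, g5⟩ := rw_facts (hy ▸ hl)
  rw [← hy] at f1 f2 hl ⊢
  have hy0 : 0 < y := by linarith
  obtain ⟨V, hVd⟩ : ∃ V : ℝ, V = ‖riemannZeta (pt (1 / 2) t)‖ := ⟨_, rfl⟩
  rw [← hVd]
  obtain ⟨r, hr⟩ : ∃ r : ℝ, r = Real.sqrt (y / Real.log y) := ⟨_, rfl⟩
  obtain ⟨w, hw⟩ : ∃ w : ℝ, w = Real.sqrt (y * Real.log y) := ⟨_, rfl⟩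
  rw [← hr, ← hw] at g2 g3
  rw [← hr] at g4
  rw [← hw] at g5 ⊢
  rcases le_total V 2 with hV | hV
  · refine hV.trans ?_
    have h1 := Real.add_one_le_exp ((1 + ε) * w)
    nlinarith
  rcases eq_or_lt_of_le hV with hV2 | hV2
  · rw [← hV2]
    have h1 := Real.add_one_le_exp ((1 + ε) * w)
    nlinarith
  have hV0 : 0 < V := by linarith
  have hr2 : 2 ≤ r := by
    rw [hr, Real.le_sqrt (by norm_num) (by positivity), le_div_iff₀ (by linarith)]
    linarith
  have hr0 : 0 < r := by linarith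
  have h1 := pointM hm1 f3.le (by linarith : 1 ≤ r) (h r t hr2 f3) (by rwa [← hVd])
  rw [← hVd, ← hy, ← hK] at h1
  have e3 : (1 + 1 / (m : ℝ)) * y / (2 * r) = (1 + 1 / (m : ℝ)) / 2 * w := by
    have : y = r * w := g3.symm
    rw [this]
    field_simp
  have e4 : r / 2 * Real.log y = w / 2 := by rw [← g2]; ring
  rw [e3, e4] at h1
  have hKw : K ≤ ε / 2 * w := by
    have h2 : |K / (ε / 2)| ≤ w := by
      rw [hw]
      apply Real.le_sqrt_of_sq_le
      rw [sq_abs]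
      refine f2.trans ?_
      nlinarith
    have h3 := (le_abs_self _).trans h2
    rw [div_le_iff₀ (by positivity)] at h3
    linarith
  have hfin : Real.log V ≤ (1 + ε) * w := by
    have hw0 : 0 ≤ w := by linarith
    have h4 : (1 + 1 / (m : ℝ)) / 2 * w ≤ (1 + ε) / 2 * w := by gcongr
    nlinarith
  rw [← Real.exp_log hV0]
  exact Real.exp_le_exp.2 hfin

end

end Pool.Agent.TH158.LO
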