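import Pool.Agent.TH158.LO.Bwd
import Pool.Agent.TH158.LO.Nec
import Pool.Agent.TH158.LO.Nec2
import Pool.Agent.TH158.FM.Main
import Pool.Agent.W903.EH.BK
import Pool.Agent.W22.EH.EX
import Pool.Agent.W347.EH.KT

set_option autoImplicit false

/-!
Large orders: assembly.
-/

namespace Pool.Agent.TH158.LO

open Complex MeasureTheory Set Filter Topology
open Pool.Agent.TH158.FM

noncomputable section

lemma GE.mono {μ μ' : ℝ} (h : GE μ) (hμ : μ ≤ μ') : GE μ' := by
  intro ε hε
  obtain ⟨C, hC⟩ := h ε hε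
  refine ⟨max C 0, fun t ht => (hC t ht).trans ?_⟩
  have h0 : 0 ≤ max C 0 := le_max_right _ _
  have h1 : 0 ≤ t ^ (μ + ε) := by positivity
  calc C * t ^ (μ + ε) ≤ max C 0 * t ^ (μ + ε) := by
        gcongr
        exact le_max_left _ _
    _ ≤ max C 0 * t ^ (μ' + ε) := by
        gcongr

theorem iff_all {A : ℝ} (hA : 0 < A) : (∀ B : ℝ, B < A → Reg B) ↔ GE (1 / (2 * A)) :=
  ⟨fun h => bwd zb_true hA h, fun h _ hB => fwd zb_true hA hB h⟩

/-- the exponent `1/6` -/
theorem weyl : GE (1 / 6) := by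
  intro ε hε
  obtain ⟨T0, hT0⟩ := Pool.Agent.W22.EH.ex (Pool.Agent.W903.EH.bk Pool.Agent.W347.EH.kt)
    Pool.Agent.W903.EH.b1 ε hε
  refine ⟨3 + |T0|, fun t ht => ?_⟩
  have htp : 1 ≤ t ^ (1 / 6 + ε) := Real.one_le_rpow ht (by positivity)
  have h0 : 0 ≤ |T0| := abs_nonneg _
  rcases le_total t T0 with hle | hge
  · refine (zb_true t).trans ?_
    rw [abs_of_nonneg (by linarith : (0:ℝ) ≤ t)]
    have : t ≤ |T0| := hle.trans (le_abs_self _)
    nlinarith
  · have h1 := (hT0 t hge).1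
    rw [pt_half]
    refine h1.trans ?_
    nlinarith

theorem three (B : ℝ) (hB : B < 3) : Reg B := by
  have h := (iff_all (A := 3) (by norm_num)).2 (by
    have : (1 : ℝ) / (2 * 3) = 1 / 6 := by norm_num
    rw [this]
    exact weyl)
  exact h B hB

theorem lindelof : (∀ B : ℝ, Reg B) ↔ GE 0 := by
  constructor
  · intro h ε hε
    have h1 := (iff_all (A := 1 / ε) (by positivity)).1 (fun B _ => h B) (ε / 2) (by positivity)
    obtain ⟨C, hC⟩ := h1
    refine ⟨C, fun t ht => ?_⟩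
    have h2 := hC t ht
    have e : 1 / (2 * (1 / ε)) + ε / 2 = 0 + ε := by field_simp; ring
    rwa [e] at h2
  · intro h B
    have hA : 0 < max B 0 + 1 := by positivity
    exact (iff_all hA).2 (h.mono (by positivity)) B (by linarith [le_max_left B 0])

end

end Pool.Agent.TH158.LO
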